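import Pool.Agent.Q161.KF.Main

/-!
# The Ky Fan inequality for partial traces fails

For `n = k = 20` take `A = I - 2 a aᵀ` with `a = (4/5) e₀ + (3/5) e₂` and
`B = -(e₀ e₀ᵀ - e₁ e₁ᵀ)/40`.  Then `σ₁(A) = 1`, `‖R(B)‖_(20) = 1`, and
`‖L(A,B)‖_(20) ≥ 2.0704`.
-/

open Matrix Finset

namespace Pool.Agent.Results.MP_03f9bf_an.FailsInDimTwenty

open Pool.Agent.Q161.KF

/-- There are `n`, Hermitian `A, B` and `1 ≤ k ≤ n` with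
`‖L(A,B)‖_(k) > 2 σ₁(A) ‖R(B)‖_(k)`; here `n = 20`. -/
theorem result : ∃ A B : Matrix (Fin 20) (Fin 20) ℂ, A.IsHermitian ∧ B.IsHermitian ∧
    ∃ k, 1 ≤ k ∧ k ≤ 20 ∧ 2 * sv A 0 * kyFan k (RR B) < kyFan k (LL A B) := by
  obtain ⟨A, B, hA, hB, h1, h2, h3⟩ := main
  refine ⟨A, B, hA, hB, 20, by norm_num, le_rfl, ?_⟩
  have h4 : 0 ≤ kyFan 20 (RR B) := Finset.sum_nonneg fun i _ => sv_nonneg _ i
  have h5 := sv_nonneg A 0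
  have h6 := h1 0
  nlinarith

end Pool.Agent.Results.MP_03f9bf_an.FailsInDimTwenty
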